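import Pool.Agent.H17.CX.Targets

/-!
# CNX, row VST: one step of the filtration by the order of the pole on the component
-/

set_option autoImplicit false

namespace Pool.Agent.H7.CNX

open MvPolynomial SC Pool.Agent.H27.LV
open Pool.Agent.H92.SF Pool.Agent.H3.SF Pool.Agent.H17.SD Pool.Agent.H17.SFG Pool.Agent.H17.CX

section

variable {k F σ LL : Type} [Field k] [Field F] [Algebra k F] [Field LL] [Algebra k LL]

/-- the restriction does not depend on the representation -/
theorem vst_unique {X : σ → F} {G : MvPolynomial σ k} {Q : Ideal (MvPolynomial σ k)}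
    (hG : aeval X G ≠ 0) (hker : ∀ f, aeval X f = 0 → f ∈ Q) (ρ : MvPolynomial σ k →ₐ[k] LL)
    (hρ : ∀ f, ρ f = 0 ↔ f ∈ Q) {j : ℕ} {a p b a' p' b' : MvPolynomial σ k}
    (h : Rgl X G Q j a p b) (h' : Rgl X G Q j a' p' b') (haa : aeval X a = aeval X a') :
    ρ b / ρ p = ρ b' / ρ p' := by
  obtain ⟨h1, h2⟩ := h
  obtain ⟨h3, h4⟩ := h'
  have hp : ρ p ≠ 0 := fun h => h1 ((hρ p).1 h)
  have hp' : ρ p' ≠ 0 := fun h => h3 ((hρ p').1 h)
  have e : aeval X (p' * b - p * b') = 0 := by
    have h5 : (aeval X (p' * b - p * b')) * aeval X G ^ j = 0 := by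
      rw [map_mul, map_mul, map_pow] at h2 h4
      rw [map_sub, map_mul, map_mul, sub_mul, mul_assoc, ← h2, mul_assoc (aeval X p), ← h4, haa]
      ring
    exact (mul_eq_zero.1 h5).resolve_right (pow_ne_zero _ hG)
  have e2 : ρ (p' * b - p * b') = 0 := (hρ _).2 (hker _ e)
  rw [map_sub, map_mul, map_mul, sub_eq_zero] at e2
  rw [div_eq_div_iff hp hp']
  linear_combination e2

theorem vst_add {X : σ → F} {G : MvPolynomial σ k} {Q : Ideal (MvPolynomial σ k)}
    (hQ : Q.IsPrime) {j : ℕ} {a p b a' p' b' : MvPolynomial σ k}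
    (h : Rgl X G Q j a p b) (h' : Rgl X G Q j a' p' b') :
    Rgl X G Q j (a + a') (p * p') (p' * b + p * b') := by
  obtain ⟨h1, h2⟩ := h
  obtain ⟨h3, h4⟩ := h'
  refine ⟨fun hh => ?_, ?_⟩
  · rcases hQ.mem_or_mem hh with h5 | h5
    · exact h1 h5
    · exact h3 h5
  · rw [map_mul, map_mul, map_pow] at h2 h4
    rw [map_mul, map_mul, map_add, map_mul, map_pow, map_add, map_mul, map_mul]
    linear_combination (aeval X p') * h2 + (aeval X p) * h4

theorem vst_smul {X : σ → F} {G : MvPolynomial σ k} {Q : Ideal (MvPolynomial σ k)}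
    {j : ℕ} {a p b : MvPolynomial σ k} (c : k) (h : Rgl X G Q j a p b) :
    Rgl X G Q j (c • a) p (c • b) := by
  obtain ⟨h1, h2⟩ := h
  refine ⟨h1, ?_⟩
  rw [mul_smul_comm, smul_mul_assoc, map_smul, map_smul, h2]

end

theorem pf_VST (hVAN : T_VAN) : T_VST := by
  intro k F σ LL _ _ _ _ _ _ _ _ X dd m G g Q ρ hS hC hρ dc c' hc' hmem t j hjt V V' hV hV'
  have hQ := hC.prime
  have hex : ∀ x : V, ∃ a p b : MvPolynomial σ k, a.IsHomogeneous t ∧ aeval X a = (x : F) ∧
      Rgl X G Q j a p b := fun x => by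
    have h1 : (x : F) ∈ (V : Set F) := x.2
    rw [hV] at h1
    exact h1
  choose A P B hA1 hA2 hA3 using hex
  have hP : ∀ x, ρ (P x) ≠ 0 := fun x h => (hA3 x).1 ((hρ _).1 h)
  -- the restriction
  let z : V →ₗ[k] LL :=
    { toFun := fun x => ρ (B x) / ρ (P x)
      map_add' := fun x y => by
        have h1 : Rgl X G Q j (A x + A y) (P x * P y) (P y * B x + P x * B y) :=
          vst_add hQ (hA3 x) (hA3 y)
        have h2 := vst_unique hS.G0 hC.ker ρ hρ (hA3 (x + y)) h1 (by
          rw [map_add, hA2, hA2, hA2, Submodule.coe_add])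
        rw [h2, map_add, map_mul, map_mul, map_mul]
        have h3 := hP x
        have h4 := hP y
        field_simp
      map_smul' := fun c x => by
        have h1 : Rgl X G Q j (c • A x) (P x) (c • B x) := vst_smul c (hA3 x)
        have h2 := vst_unique hS.G0 hC.ker ρ hρ (hA3 (c • x)) h1 (by
          rw [map_smul, hA2, hA2, Submodule.coe_smul])
        rw [h2, map_smul, RingHom.id_apply, smul_div_assoc] }
  have hz : ∀ x, ρ (P x) * z x = ρ (B x) := fun x => by
    show ρ (P x) * (ρ (B x) / ρ (P x)) = ρ (B x)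
    field_simp [hP x]
  let lam : V →ₗ[k] St ρ (t - j * m + dc) :=
    LinearMap.codRestrict _ ((LinearMap.mulLeft k (ρ c')).comp z) fun x =>
      hmem t j (A x) (P x) (B x) (hA1 x) hjt (hA3 x) (z x) (hz x)
  -- finiteness
  have f0 : Module.Finite k (homogeneousSubmodule σ k t) :=
    Module.Finite.iff_fg.2 (homogeneousSubmodule_fg σ k t)
  have f1 : Module.Finite k (Pt (k := k) X t) := by
    unfold Pt
    infer_instance
  have f2 : Module.Finite k (St ρ (t - j * m + dc)) := by
    have : Module.Finite k (homogeneousSubmodule σ k (t - j * m + dc)) :=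
      Module.Finite.iff_fg.2 (homogeneousSubmodule_fg σ k _)
    unfold St
    infer_instance
  have hle : ∀ (i : ℕ) (U : Submodule k F), (U : Set F) = Vt X G Q t i → U ≤ Pt (k := k) X t := by
    intro i U hU x hx
    have h1 : x ∈ (U : Set F) := hx
    rw [hU] at h1
    obtain ⟨a, p, b, h2, h3, -⟩ := h1
    exact ⟨a, h2, h3⟩
  have f3 : FiniteDimensional k V := Submodule.finiteDimensional_of_le (hle j V hV)
  have f4 : FiniteDimensional k V' := Submodule.finiteDimensional_of_le (hle (j + 1) V' hV')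
  -- the kernel
  have hker : ∀ x : V, lam x = 0 → (x : F) ∈ V' := by
    intro x hx
    have h1 : ρ c' * z x = 0 := by
      have := congrArg Subtype.val hx
      exact this
    have h2 : z x = 0 := (mul_eq_zero.1 h1).resolve_left fun h => hc' ((hρ _).1 h)
    have h3 : ρ (B x) = 0 := by rw [← hz x, h2, mul_zero]
    obtain ⟨p', b', h4⟩ := hVAN k F σ X dd m G g Q hS hC t j (A x) (P x) (B x) (hA1 x) (hA3 x)
      ((hρ _).1 h3)
    have h5 : (x : F) ∈ (V' : Set F) := by
      rw [hV']
      exact ⟨A x, p', b', hA1 x, hA2 x, h4⟩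
    exact h5
  let io : LinearMap.ker lam →ₗ[k] V' :=
    { toFun := fun x => ⟨((x : V) : F), hker x.1 (LinearMap.mem_ker.1 x.2)⟩
      map_add' := fun x y => rfl
      map_smul' := fun c x => rfl }
  have hio : Function.Injective io := by
    intro x y hxy
    have h1 : ((x : V) : F) = ((y : V) : F) := congrArg (fun w : V' => (w : F)) hxy
    exact Subtype.ext (Subtype.ext h1)
  have r1 := LinearMap.finrank_range_add_finrank_ker lam
  have r2 : Module.finrank k (LinearMap.range lam) ≤
      Module.finrank k (St ρ (t - j * m + dc)) := Submodule.finrank_le _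
  have r3 : Module.finrank k (LinearMap.ker lam) ≤ Module.finrank k V' :=
    LinearMap.finrank_le_finrank_of_injective hio
  omega

end Pool.Agent.H7.CNX
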